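import Pool.Agent.P.MP_fb2360_al.Joint

namespace Pool.Agent.Results.MP_fb2360_al.Bound54

open Pool.Agent.P.MP_fb2360_al

/-- For an irreducible complex character `χ` of a finite group with field of values `F`, conductor
`c` and cyclotomic deficiency `D = [ℚ_c : F]`: `D^4 ≤ χ(1)^5`. -/
theorem result (G : Type) [Group G] [Finite G] (V : Type) [AddCommGroup V] [Module ℂ V]
    [FiniteDimensional ℂ V] (ρ : Representation ℂ G V) [ρ.IsIrreducible]
    (F : IntermediateField ℚ ℂ) (hF : F = IntermediateField.adjoin ℚ (Set.range ρ.character)) :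
    (F.relfinrank (cyc (fieldCond F))) ^ 4 ≤ Module.finrank ℂ V ^ 5 :=
  (Joint.joint G V ρ F hF).1

end Pool.Agent.Results.MP_fb2360_al.Bound54
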