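import Pool.Agent.P.MP_fb2360_al.Joint

namespace Pool.Agent.Results.MP_fb2360_al.ExactCases

open Pool.Agent.P.MP_fb2360_al

/-- For an irreducible complex character `χ` of a finite group with field of values `F`, conductor
`c` and cyclotomic deficiency `D = [ℚ_c : F]`: `D ≤ χ(1)` when `c` has at most six prime divisors or
`Gal(F/ℚ)` has a cyclic subgroup of prime power index. -/
theorem result (G : Type) [Group G] [Finite G] (V : Type) [AddCommGroup V] [Module ℂ V]
    [FiniteDimensional ℂ V] (ρ : Representation ℂ G V) [ρ.IsIrreducible]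
    (F : IntermediateField ℚ ℂ) (hF : F = IntermediateField.adjoin ℚ (Set.range ρ.character))
    (h : (fieldCond F).primeFactors.card ≤ 6 ∨
      ∃ (σ : F ≃ₐ[ℚ] F) (l k : ℕ), l.Prime ∧ (Subgroup.zpowers σ).index = l ^ k) :
    F.relfinrank (cyc (fieldCond F)) ≤ Module.finrank ℂ V :=
  h.elim (Joint.joint G V ρ F hF).2.1 (Joint.joint G V ρ F hF).2.2

end Pool.Agent.Results.MP_fb2360_al.ExactCases
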