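import Pool.Agent.P.MP_fb2360_al.T.Ind

namespace Pool.Agent.Results.MP_fb2360_al.TamePrimes

open Pool.Agent.P.MP_fb2360_al Pool.Agent.P.MP_fb2360_al.T

/-- For an irreducible complex character `χ` of a finite group `G` with field of values `F`,
conductor `c` and cyclotomic deficiency `D = [ℚ_c : F]`: if every prime divisor of `c` outside a set
`W` of at most six numbers is tame for `G`, then `D ≤ χ(1)`. -/
theorem result (G : Type) [Group G] [Finite G] (V : Type) [AddCommGroup V] [Module ℂ V]
    [FiniteDimensional ℂ V] (ρ : Representation ℂ G V) [ρ.IsIrreducible]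
    (F : IntermediateField ℚ ℂ) (hF : F = IntermediateField.adjoin ℚ (Set.range ρ.character))
    (W : Finset ℕ) (hW : W.card ≤ 6)
    (h : ∀ p, p.Prime → p ∣ fieldCond F → p ∉ W → Tame G p) :
    F.relfinrank (cyc (fieldCond F)) ≤ Module.finrank ℂ V :=
  final G V ρ F hF W hW h

end Pool.Agent.Results.MP_fb2360_al.TamePrimes
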